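import Mathlib

/-! # MP_e65cda: boundedness for the Lyness equation with periodic nonnegative coefficients

`p = 2` is the only good integer. -/

namespace Pool.Agent.Results.MP_e65cda_an.OnlyTwo

open Real

/-- `p` is the least positive period of `α`. -/
def IsLeastPeriod (α : ℕ → ℝ) (p : ℕ) : Prop :=
  0 < p ∧ (∀ n, α (n + p) = α n) ∧ ∀ q, 0 < q → (∀ n, α (n + q) = α n) → p ≤ q

/-- `x` (indexed from `0`: `x 0 = x_{-1}`, `x 1 = x_0`) is a positive solution. -/
def IsPositiveSolution (α : ℕ → ℝ) (x : ℕ → ℝ) : Prop :=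
  0 < x 0 ∧ 0 < x 1 ∧ ∀ n, x (n + 2) = (α n + x (n + 1)) / x n

/-- `p` is good. -/
def Good (p : ℕ) : Prop :=
  ∀ α : ℕ → ℝ, (∀ n, 0 ≤ α n) → IsLeastPeriod α p →
    ∀ x : ℕ → ℝ, IsPositiveSolution α x → ∃ M, ∀ n, x n ≤ M

lemma sol_pos {α x : ℕ → ℝ} (hα : ∀ n, 0 ≤ α n) (hx : IsPositiveSolution α x) : ∀ n, 0 < x n := by
  obtain ⟨h0, h1, hr⟩ := hx
  intro n
  induction n using Nat.strong_induction_on with
  | _ n ih =>
    rcases n with _ | _ | n
    · exact h0
    · exact h1
    · rw [hr n]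
      have p := ih n (by omega)
      have q := ih (n + 1) (by omega)
      have r := hα n
      positivity

/-! ### Period two -/

/-- the invariant -/
noncomputable def W (a b x y : ℝ) : ℝ :=
  a * b / (x * y) + (a + b ^ 2) / y + (a ^ 2 + b) / x + a * y / x + b * x / y + a * x + b * y

lemma W_step {a b x y : ℝ} (ha : 0 ≤ a) (hx : 0 < x) (hy : 0 < y) :
    W b a y ((a + y) / x) = W a b x y := by
  have h : 0 < a + y := by positivity
  unfold W
  field_simp
  ring

theorem good_two : Good 2 := by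
  intro α hα ⟨_, hper, hleast⟩ x hx
  have hp := sol_pos hα hx
  have hne : α 0 ≠ α 1 := by
    intro h
    have : 2 ≤ 1 := hleast 1 one_pos (by
      intro n
      induction n using Nat.strong_induction_on with
      | _ n ih =>
        rcases n with _ | _ | n
        · exact h.symm
        · rw [show 0 + 1 + 1 = 0 + 2 by rfl, hper]
          exact h
        · rw [show n + 2 + 1 = n + 1 + 2 by ring, hper, hper]
          exact ih n (by omega))
    omega
  -- the invariant along the solution
  have hW : ∀ n, W (α n) (α (n + 1)) (x n) (x (n + 1)) = W (α 0) (α 1) (x 0) (x 1) := by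
    intro n
    induction n with
    | zero => rfl
    | succ n ih =>
      rw [← ih, show n + 1 + 1 = n + 2 by ring, hper n, hx.2.2 n]
      exact W_step (hα n) (hp n) (hp (n + 1))
  set c := W (α 0) (α 1) (x 0) (x 1) with hc
  have hmax : ∃ i, 0 < α i ∧ ∀ n, α n = α i ∨ α (n + 1) = α i := by
    have hall : ∀ n, (α n = α 0 ∧ α (n + 1) = α 1) ∨ (α n = α 1 ∧ α (n + 1) = α 0) := by
      intro n
      induction n with
      | zero => exact Or.inl ⟨rfl, rfl⟩
      | succ n ih =>
        rw [show n + 1 + 1 = n + 2 by ring, hper n]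
        rcases ih with ⟨h1, h2⟩ | ⟨h1, h2⟩
        · exact Or.inr ⟨h2, h1⟩
        · exact Or.inl ⟨h2, h1⟩
    rcases (hα 0).lt_or_eq with h | h
    · exact ⟨0, h, fun n => (hall n).imp And.left And.right⟩
    · refine ⟨1, lt_of_le_of_ne (hα 1) (by rw [h]; exact hne), fun n => ?_⟩
      rcases hall n with h1 | h1
      · exact Or.inr h1.2
      · exact Or.inl h1.1
  obtain ⟨i, hi, hex⟩ := hmax
  have hc0 : 0 < c := by
    have h1 : ∀ a b u v : ℝ, 0 ≤ a → 0 ≤ b → 0 < a ∨ 0 < b → 0 < u → 0 < v → 0 < W a b u v := by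
      intro a b u v ha hb hab hu hv
      unfold W
      rcases hab with h | h <;> positivity
    refine h1 _ _ _ _ (hα 0) (hα 1) ?_ (hp 0) (hp 1)
    rcases hex 0 with h | h
    · left; rw [h]; exact hi
    · right; simpa using h ▸ hi
  refine ⟨max (c / α i) (c / α i * (c / α i)), fun n => ?_⟩
  have hx0 := hp n
  have hx1 := hp (n + 1)
  have hWn := hW n
  have e1 := hα n
  have e2 := hα (n + 1)
  rcases hex n with h | h
  · -- `α n > 0`: the term `α n * x n`
    refine le_trans ?_ (le_max_left _ _)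
    rw [le_div_iff₀ hi]
    have h1 : α n * x n ≤ W (α n) (α (n + 1)) (x n) (x (n + 1)) := by
      unfold W
      have t1 : 0 ≤ α n * α (n + 1) / (x n * x (n + 1)) := by positivity
      have t2 : 0 ≤ (α n + α (n + 1) ^ 2) / x (n + 1) := by positivity
      have t3 : 0 ≤ (α n ^ 2 + α (n + 1)) / x n := by positivity
      have t4 : 0 ≤ α n * x (n + 1) / x n := by positivity
      have t5 : 0 ≤ α (n + 1) * x n / x (n + 1) := by positivity
      have t6 : 0 ≤ α (n + 1) * x (n + 1) := by positivity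
      linarith
    rw [hWn, h] at h1
    linarith
  · -- `α (n + 1) > 0`: the terms `α (n + 1) * x (n + 1)` and `α (n + 1) * x n / x (n + 1)`
    refine le_trans ?_ (le_max_right _ _)
    have h1 : α (n + 1) * x (n + 1) ≤ W (α n) (α (n + 1)) (x n) (x (n + 1)) := by
      unfold W
      have t1 : 0 ≤ α n * α (n + 1) / (x n * x (n + 1)) := by positivity
      have t2 : 0 ≤ (α n + α (n + 1) ^ 2) / x (n + 1) := by positivity
      have t3 : 0 ≤ (α n ^ 2 + α (n + 1)) / x n := by positivity
      have t4 : 0 ≤ α n * x (n + 1) / x n := by positivity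
      have t5 : 0 ≤ α (n + 1) * x n / x (n + 1) := by positivity
      have t6 : 0 ≤ α n * x n := by positivity
      linarith
    have h2 : α (n + 1) * x n / x (n + 1) ≤ W (α n) (α (n + 1)) (x n) (x (n + 1)) := by
      unfold W
      have t1 : 0 ≤ α n * α (n + 1) / (x n * x (n + 1)) := by positivity
      have t2 : 0 ≤ (α n + α (n + 1) ^ 2) / x (n + 1) := by positivity
      have t3 : 0 ≤ (α n ^ 2 + α (n + 1)) / x n := by positivity
      have t4 : 0 ≤ α n * x (n + 1) / x n := by positivity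
      have t5 : 0 ≤ α n * x n := by positivity
      have t6 : 0 ≤ α (n + 1) * x (n + 1) := by positivity
      linarith
    rw [hWn, h] at h1 h2
    have h3 : x (n + 1) ≤ c / α i := by
      rw [le_div_iff₀ hi]; linarith
    rw [div_le_iff₀ hx1] at h2
    have h4 : x n ≤ c / α i * x (n + 1) := by
      rw [div_mul_eq_mul_div, le_div_iff₀ hi]; linarith
    exact h4.trans (mul_le_mul_of_nonneg_left h3 (by positivity))

/-! ### The other periods -/

/-- one step of the recursion on pairs `(x_{n-1}, x_n)` -/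
noncomputable def step (a : ℝ) (s : ℝ × ℝ) : ℝ × ℝ := (s.2, (a + s.2) / s.1)

/-- the steps with the coefficients of a list -/
noncomputable def run (l : List ℝ) (s : ℝ × ℝ) : ℝ × ℝ := l.foldl (fun s a => step a s) s

/-- both entries are positive -/
def Pos (s : ℝ × ℝ) : Prop := 0 < s.1 ∧ 0 < s.2

lemma run_nil (s : ℝ × ℝ) : run [] s = s := rfl

lemma run_cons (a : ℝ) (l : List ℝ) (s : ℝ × ℝ) : run (a :: l) s = run l (step a s) := rfl

lemma run_append (l l' : List ℝ) (s : ℝ × ℝ) : run (l ++ l') s = run l' (run l s) := by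
  unfold run
  rw [List.foldl_append]

lemma step_pos {a : ℝ} (ha : 0 ≤ a) {s : ℝ × ℝ} (h : Pos s) : Pos (step a s) := by
  obtain ⟨h1, h2⟩ := h
  refine ⟨h2, ?_⟩
  simp only [step]
  positivity

lemma run_pos {l : List ℝ} (hl : ∀ a ∈ l, 0 ≤ a) {s : ℝ × ℝ} (h : Pos s) : Pos (run l s) := by
  induction l generalizing s with
  | nil => exact h
  | cons a l ih =>
    rw [run_cons]
    exact ih (fun b hb => hl b (by simp [hb])) (step_pos (hl a (by simp)) h)

lemma zero_six {s : ℝ × ℝ} (h : Pos s) : run [0, 0, 0, 0, 0, 0] s = s := by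
  obtain ⟨u, v⟩ := s
  obtain ⟨h1, h2⟩ := h
  simp only at h1 h2
  simp only [run, step, List.foldl, zero_add]
  ext <;> simp only <;> field_simp

lemma one_five {s : ℝ × ℝ} (h : Pos s) : run [1, 1, 1, 1, 1] s = s := by
  obtain ⟨u, v⟩ := s
  obtain ⟨h1, h2⟩ := h
  simp only at h1 h2
  simp only [run, step, List.foldl]
  ext <;> simp only <;> field_simp <;> ring

lemma zeros {m : ℕ} {s : ℝ × ℝ} (h : Pos s) : run (List.replicate (6 * m) 0) s = s := by
  induction m with
  | zero => rfl
  | succ m ih =>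
    have : List.replicate (6 * (m + 1)) (0 : ℝ) = [0, 0, 0, 0, 0, 0] ++ List.replicate (6 * m) 0 := by
      rw [show 6 * (m + 1) = 6 + 6 * m by ring, List.replicate_add]
      rfl
    rw [this, run_append, zero_six h, ih]

/-- The iterates of the map of the list `l` have an orbit with unbounded second entry. -/
def Grows (l : List ℝ) : Prop :=
  ∃ s : ℝ × ℝ, Pos s ∧ ∀ M : ℝ, ∃ k : ℕ, M < ((run l)^[k] s).2

lemma Grows.congr {l l' : List ℝ} (hl : ∀ a ∈ l, 0 ≤ a) (h : ∀ s, Pos s → run l' s = run l s)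
    (hg : Grows l) : Grows l' := by
  obtain ⟨s, hs, hM⟩ := hg
  refine ⟨s, hs, fun M => ?_⟩
  obtain ⟨k, hk⟩ := hM M
  refine ⟨k, ?_⟩
  have : ∀ k, (run l')^[k] s = (run l)^[k] s ∧ Pos ((run l)^[k] s) := by
    intro k
    induction k with
    | zero => exact ⟨rfl, hs⟩
    | succ k ih =>
      rw [Function.iterate_succ_apply', Function.iterate_succ_apply', ih.1]
      exact ⟨h _ ih.2, run_pos hl ih.2⟩
  rw [(this k).1]
  exact hk

/-- the coefficients given by a list -/
def coef (l : List ℝ) (n : ℕ) : ℝ := l.getD (n % l.length) 0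

/-- the states -/
noncomputable def st (α : ℕ → ℝ) (s : ℝ × ℝ) : ℕ → ℝ × ℝ
  | 0 => s
  | n + 1 => step (α n) (st α s n)

lemma st_add (α : ℕ → ℝ) (s : ℝ × ℝ) (m j : ℕ) :
    st α s (m + j) = run ((List.range j).map fun i => α (m + i)) (st α s m) := by
  induction j with
  | zero => rfl
  | succ j ih =>
    rw [List.range_succ, List.map_append, run_append, ← ih]
    rfl

lemma coef_block (l : List ℝ) (k : ℕ) :
    ((List.range l.length).map fun i => coef l (l.length * k + i)) = l := by
  apply List.ext_getElem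
  · simp
  · intro i h1 h2
    simp only [List.getElem_map, List.getElem_range, coef]
    rw [Nat.mul_add_mod, Nat.mod_eq_of_lt h2]
    simp [List.getD_eq_getElem?_getD, List.getElem?_eq_getElem h2]

lemma st_iterate (l : List ℝ) (s : ℝ × ℝ) (k : ℕ) :
    st (coef l) s (l.length * k) = (run l)^[k] s := by
  induction k with
  | zero => rfl
  | succ k ih =>
    rw [Function.iterate_succ_apply', ← ih, Nat.mul_succ, st_add, coef_block]

/-- A growing list in which one value occurs exactly once gives a counterexample. -/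
lemma not_good {l : List ℝ} (hl : ∀ a ∈ l, 0 ≤ a) (hg : Grows l) (hlen : 0 < l.length) (i : ℕ)
    (hi : i < l.length) (hu : ∀ j, j < l.length → l.getD j 0 = l.getD i 0 → j = i) :
    ¬ Good l.length := by
  intro hgood
  obtain ⟨s, hs, hM⟩ := hg
  have hα : ∀ n, 0 ≤ coef l n := by
    intro n
    unfold coef
    have h := Nat.mod_lt n hlen
    rw [List.getD_eq_getElem?_getD, List.getElem?_eq_getElem h]
    exact hl _ (List.getElem_mem h)
  have hper : IsLeastPeriod (coef l) l.length := by
    refine ⟨hlen, fun n => ?_, fun q hq hqp => ?_⟩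
    · unfold coef
      rw [Nat.add_mod_right]
    · have h := hqp i
      unfold coef at h
      rw [Nat.mod_eq_of_lt hi] at h
      have h1 := hu _ (Nat.mod_lt _ hlen) h
      by_contra hlt
      push Not at hlt
      rcases lt_or_ge (i + q) l.length with h2 | h2
      · rw [Nat.mod_eq_of_lt h2] at h1
        omega
      · have h3 : (i + q) % l.length = i + q - l.length := by
          rw [Nat.mod_eq_sub_mod h2, Nat.mod_eq_of_lt (by omega)]
        omega
  have hst : ∀ n, Pos (st (coef l) s n) := by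
    intro n
    induction n with
    | zero => exact hs
    | succ n ih => exact step_pos (hα n) ih
  obtain ⟨M, hMx⟩ := hgood (coef l) hα hper (fun n => (st (coef l) s n).1)
    ⟨hs.1, by simpa [st, step] using hs.2, fun n => by simp [st, step]⟩
  obtain ⟨k, hk⟩ := hM M
  rw [← st_iterate] at hk
  have h := hMx (l.length * k + 1)
  simp only [st, step] at h
  linarith

/-! ### Blocks -/

lemma grows_of_mul {l : List ℝ} {N : ℕ} {u c : ℝ} (hu : 0 < u) (hc : 1 < c)
    (h : ∀ v : ℝ, 0 < v → (run l)^[N] (u, v) = (u, c * v)) : Grows l := by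
  have h1 : ∀ k : ℕ, (run l)^[N * k] (u, 1) = (u, c ^ k) := by
    intro k
    induction k with
    | zero => simp
    | succ k ih =>
      rw [Nat.mul_succ, Nat.add_comm, Function.iterate_add_apply, ih, h _ (by positivity), pow_succ,
        mul_comm]
  refine ⟨(u, 1), ⟨hu, one_pos⟩, fun M => ?_⟩
  obtain ⟨k, hk⟩ := pow_unbounded_of_one_lt M hc
  exact ⟨N * k, by rw [h1]; exact hk⟩

lemma grows3 : Grows [0, 0, 2] := by
  refine grows_of_mul (N := 2) (u := 1 / 2) (c := 5 / 2) (by norm_num) (by norm_num) fun v hv => ?_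
  simp only [Function.iterate_succ_apply', Function.iterate_zero_apply, run, step, List.foldl]
  ext <;> simp only <;> field_simp <;> ring

lemma grows5 : Grows [1, 1, 1, 1, 3] := by
  refine grows_of_mul (N := 1) (u := 1) (c := 2) (by norm_num) (by norm_num) fun v hv => ?_
  simp only [Function.iterate_succ_apply', Function.iterate_zero_apply, run, step, List.foldl]
  ext <;> simp only <;> field_simp <;> ring

lemma grows6 : Grows [0, 0, 0, 0, 0, 1] := by
  refine grows_of_mul (N := 1) (u := 1) (c := 2) (by norm_num) (by norm_num) fun v hv => ?_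
  simp only [Function.iterate_succ_apply', Function.iterate_zero_apply, run, step, List.foldl]
  ext <;> simp only <;> field_simp <;> ring

lemma grows8 : Grows [0, 0, 2, 1, 1, 1, 1, 1] := by
  refine Grows.congr (l := [0, 0, 2]) ?_ ?_ grows3
  · intro a ha
    simp only [List.mem_cons, List.not_mem_nil, or_false] at ha
    rcases ha with rfl | rfl | rfl <;> norm_num
  · intro s hs
    rw [show ([0, 0, 2, 1, 1, 1, 1, 1] : List ℝ) = [0, 0, 2] ++ [1, 1, 1, 1, 1] by rfl, run_append]
    refine one_five (run_pos ?_ hs)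
    intro a ha
    simp only [List.mem_cons, List.not_mem_nil, or_false] at ha
    rcases ha with rfl | rfl | rfl <;> norm_num

lemma stA {u v : ℝ} (hu : 0 < u) (hv : 0 < v) :
    ∃ w, step 0 (u, v) = (v, w) ∧ 0 < w ∧ log w = log v - log u := by
  refine ⟨v / u, by simp [step], by positivity, ?_⟩
  rw [log_div hv.ne' hu.ne']

lemma stP {a u v : ℝ} (ha : 0 < a) (hu : 0 < u) (hv : 0 < v) :
    ∃ w, step a (u, v) = (v, w) ∧ 0 < w ∧ log a - log u ≤ log w ∧ log v - log u ≤ log w ∧
      (log v ≤ log a → log w ≤ log a - log u + log 2) ∧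
      (log a ≤ log v → log w ≤ log v - log u + log 2) := by
  refine ⟨(a + v) / u, rfl, by positivity, ?_, ?_, ?_, ?_⟩
  · rw [log_div (by positivity) hu.ne']
    have := log_le_log ha (by linarith : a ≤ a + v)
    linarith
  · rw [log_div (by positivity) hu.ne']
    have := log_le_log hv (by linarith : v ≤ a + v)
    linarith
  · intro h
    have h1 : v ≤ a := (log_le_log_iff hv ha).1 h
    rw [log_div (by positivity) hu.ne']
    have := log_le_log (by positivity) (by linarith : a + v ≤ a * 2)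
    rw [log_mul ha.ne' two_ne_zero] at this
    linarith
  · intro h
    have h1 : a ≤ v := (log_le_log_iff ha hv).1 h
    rw [log_div (by positivity) hu.ne']
    have := log_le_log (by positivity) (by linarith : a + v ≤ v * 2)
    rw [log_mul hv.ne' two_ne_zero] at this
    linarith

/-- growth from a region which is mapped into itself -/
lemma grows_of_region {l : List ℝ} {N : ℕ} (R : ℝ × ℝ → Prop) (s : ℝ × ℝ) (hs : R s)
    (hpos : ∀ s, R s → Pos s)
    (h : ∀ s, R s → R ((run l)^[N] s) ∧ log s.2 + log 2 ≤ log ((run l)^[N] s).2) : Grows l := by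
  have h1 : ∀ k : ℕ, R ((run l)^[N * k] s) ∧ log s.2 + k * log 2 ≤ log ((run l)^[N * k] s).2 := by
    intro k
    induction k with
    | zero => simpa using hs
    | succ k ih =>
      rw [Nat.mul_succ, Nat.add_comm (N * k), Function.iterate_add_apply]
      obtain ⟨h2, h3⟩ := h _ ih.1
      refine ⟨h2, ?_⟩
      push_cast
      linarith [ih.2]
  have h2 : 0 < log 2 := log_pos one_lt_two
  refine ⟨s, hpos s hs, fun M => ?_⟩
  obtain ⟨k, hk⟩ := exists_nat_gt ((log (max M 1) - log s.2) / log 2)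
  refine ⟨N * k, ?_⟩
  obtain ⟨h3, h4⟩ := h1 k
  rw [div_lt_iff₀ h2] at hk
  have h5 : log (max M 1) < log ((run l)^[N * k] s).2 := by linarith
  have h6 := (log_lt_log_iff (lt_of_lt_of_le one_pos (le_max_right M 1)) (hpos _ h3).2).1 h5
  exact lt_of_le_of_lt (le_max_left _ _) h6

/-- the block of length four -/
noncomputable def b4 : List ℝ := [0, 2 ^ 20, 0, (2 ^ 20)⁻¹]

lemma grows4 : Grows b4 := by
  have hl : 0 < log 2 := log_pos one_lt_two
  refine grows_of_region (N := 4)
    (fun s => Pos s ∧ 41 * log 2 ≤ log s.2 ∧ 2 * log s.2 + 22 * log 2 ≤ log s.1)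
    (2 ^ 200, 2 ^ 50) ⟨⟨by positivity, by positivity⟩, ?_, ?_⟩ (fun s h => h.1) ?_
  · rw [log_pow]; push_cast; linarith
  · rw [log_pow, log_pow]; push_cast; linarith
  rintro ⟨u, v⟩ ⟨⟨hu, hv⟩, hV, hU⟩
  simp only at hu hv hV hU
  have hb : (0 : ℝ) < 2 ^ 20 := by positivity
  have hc : (0 : ℝ) < (2 ^ 20)⁻¹ := by positivity
  have lb : log ((2 : ℝ) ^ 20) = 20 * log 2 := by rw [log_pow]; norm_num
  have lc : log (((2 : ℝ) ^ 20)⁻¹) = -(20 * log 2) := by rw [log_inv, lb]
  obtain ⟨x1, e1, p1, f1⟩ := stA hu hv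
  obtain ⟨x2, e2, p2, a2, b2, c2, d2⟩ := stP hb hv p1
  obtain ⟨x3, e3, p3, f3⟩ := stA p1 p2
  obtain ⟨x4, e4, p4, a4, b4, c4, d4⟩ := stP hc p2 p3
  obtain ⟨x5, e5, p5, f5⟩ := stA p3 p4
  obtain ⟨x6, e6, p6, a6, b6, c6, d6⟩ := stP hb p4 p5
  obtain ⟨x7, e7, p7, f7⟩ := stA p5 p6
  obtain ⟨x8, e8, p8, a8, b8, c8, d8⟩ := stP hc p6 p7
  obtain ⟨x9, e9, p9, f9⟩ := stA p7 p8
  obtain ⟨x10, e10, p10, a10, b10, c10, d10⟩ := stP hb p8 p9
  obtain ⟨x11, e11, p11, f11⟩ := stA p9 p10
  obtain ⟨x12, e12, p12, a12, b12, c12, d12⟩ := stP hc p10 p11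
  obtain ⟨x13, e13, p13, f13⟩ := stA p11 p12
  obtain ⟨x14, e14, p14, a14, b14, c14, d14⟩ := stP hb p12 p13
  obtain ⟨x15, e15, p15, f15⟩ := stA p13 p14
  obtain ⟨x16, e16, p16, a16, b16, c16, d16⟩ := stP hc p14 p15
  rw [lb] at a2 c2 d2 a6 c6 d6 a10 c10 d10 a14 c14 d14
  rw [lc] at a4 c4 d4 a8 c8 d8 a12 c12 d12 a16 c16 d16
  have hrun : (run Pool.Agent.Results.MP_e65cda_an.OnlyTwo.b4)^[4] (u, v) = (x15, x16) := by
    simp only [Function.iterate_succ_apply', Function.iterate_zero_apply,
      Pool.Agent.Results.MP_e65cda_an.OnlyTwo.b4, run, List.foldl, e1, e2, e3, e4, e5, e6, e7, e8,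
      e9, e10, e11, e12, e13, e14, e15, e16]
  rw [hrun]
  generalize log 2 = t at *
  generalize log u = U at *
  generalize log v = V at *
  have g2 := c2 (by linarith)
  have g4 := d4 (by linarith)
  have g6 := d6 (by linarith)
  have g8 := c8 (by linarith)
  have g10 := d10 (by linarith)
  have g12 := c12 (by linarith)
  have g14 := c14 (by linarith)
  have g16 := d16 (by linarith)
  refine ⟨⟨⟨p15, p16⟩, ?_, ?_⟩, ?_⟩ <;> simp only <;> linarith

lemma grows7 : Grows [2, 1, 0, 1, 0, 1, 0] := by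
  have hl : 0 < log 2 := log_pos one_lt_two
  refine grows_of_region (N := 3)
    (fun s => Pos s ∧ 100 * log 2 ≤ log s.1 ∧ 2 * log s.1 ≤ log s.2)
    (2 ^ 100, 2 ^ 200) ⟨⟨by positivity, by positivity⟩, ?_, ?_⟩ (fun s h => h.1) ?_
  · rw [log_pow]; push_cast; linarith
  · rw [log_pow, log_pow]; push_cast; linarith
  rintro ⟨u, v⟩ ⟨⟨hu, hv⟩, hU, hV⟩
  simp only at hu hv hV hU
  have h1 : (0 : ℝ) < 1 := one_pos
  have h2 : (0 : ℝ) < 2 := two_pos
  obtain ⟨x1, e1, p1, a1, b1, c1, d1⟩ := stP h2 hu hv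
  obtain ⟨x2, e2, p2, a2, b2, c2, d2⟩ := stP h1 hv p1
  obtain ⟨x3, e3, p3, f3⟩ := stA p1 p2
  obtain ⟨x4, e4, p4, a4, b4, c4, d4⟩ := stP h1 p2 p3
  obtain ⟨x5, e5, p5, f5⟩ := stA p3 p4
  obtain ⟨x6, e6, p6, a6, b6, c6, d6⟩ := stP h1 p4 p5
  obtain ⟨x7, e7, p7, f7⟩ := stA p5 p6
  obtain ⟨x8, e8, p8, a8, b8, c8, d8⟩ := stP h2 p6 p7
  obtain ⟨x9, e9, p9, a9, b9, c9, d9⟩ := stP h1 p7 p8
  obtain ⟨x10, e10, p10, f10⟩ := stA p8 p9
  obtain ⟨x11, e11, p11, a11, b11, c11, d11⟩ := stP h1 p9 p10
  obtain ⟨x12, e12, p12, f12⟩ := stA p10 p11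
  obtain ⟨x13, e13, p13, a13, b13, c13, d13⟩ := stP h1 p11 p12
  obtain ⟨x14, e14, p14, f14⟩ := stA p12 p13
  obtain ⟨x15, e15, p15, a15, b15, c15, d15⟩ := stP h2 p13 p14
  obtain ⟨x16, e16, p16, a16, b16, c16, d16⟩ := stP h1 p14 p15
  obtain ⟨x17, e17, p17, f17⟩ := stA p15 p16
  obtain ⟨x18, e18, p18, a18, b18, c18, d18⟩ := stP h1 p16 p17
  obtain ⟨x19, e19, p19, f19⟩ := stA p17 p18
  obtain ⟨x20, e20, p20, a20, b20, c20, d20⟩ := stP h1 p18 p19
  obtain ⟨x21, e21, p21, f21⟩ := stA p19 p20
  rw [log_one] at a2 c2 d2 a4 c4 d4 a6 c6 d6 a9 c9 d9 a11 c11 d11 a13 c13 d13 a16 c16 d16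
  rw [log_one] at a18 c18 d18 a20 c20 d20
  have hrun : (run [2, 1, 0, 1, 0, 1, 0])^[3] (u, v) = (x20, x21) := by
    simp only [Function.iterate_succ_apply', Function.iterate_zero_apply, run, List.foldl, e1, e2,
      e3, e4, e5, e6, e7, e8, e9, e10, e11, e12, e13, e14, e15, e16, e17, e18, e19, e20, e21]
  rw [hrun]
  generalize log 2 = t at *
  generalize log u = U at *
  generalize log v = V at *
  have g1 := d1 (by linarith)
  have g2 := d2 (by linarith)
  have g4 := c4 (by linarith)
  have g6 := d6 (by linarith)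
  have g8 := c8 (by linarith)
  have g9 := c9 (by linarith)
  have g11 := d11 (by linarith)
  have g13 := c13 (by linarith)
  have g15 := c15 (by linarith)
  have g16 := d16 (by linarith)
  have g18 := d18 (by linarith)
  have g20 := c20 (by linarith)
  refine ⟨⟨⟨p20, p21⟩, ?_, ?_⟩, ?_⟩ <;> simp only <;> linarith

/-- All the blocks with any number of groups of six zeros appended. -/
lemma bad_of_block {l : List ℝ} (hl : ∀ a ∈ l, 0 ≤ a) (hg : Grows l) (i : ℕ) (hi : i < l.length)
    (hi0 : l.getD i 0 ≠ 0) (hu : ∀ j, j < l.length → l.getD j 0 = l.getD i 0 → j = i) (m : ℕ) :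
    ¬ Good (l.length + 6 * m) := by
  have h := not_good (l := l ++ List.replicate (6 * m) 0) ?_ ?_ ?_ i ?_ ?_
  · rwa [List.length_append, List.length_replicate] at h
  · intro a ha
    rw [List.mem_append] at ha
    rcases ha with h | h
    · exact hl a h
    · rw [List.eq_of_mem_replicate h]
  · refine Grows.congr hl (fun s hs => ?_) hg
    rw [run_append]
    exact zeros (run_pos hl hs)
  · rw [List.length_append]; omega
  · rw [List.length_append]; omega
  · intro j hj h
    have e1 : (l ++ List.replicate (6 * m) (0 : ℝ)).getD i 0 = l.getD i 0 :=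
      List.getD_append _ _ _ _ hi
    rw [e1] at h
    rcases lt_or_ge j l.length with h1 | h1
    · rw [List.getD_append _ _ _ _ h1] at h
      exact hu j h1 h
    · exfalso
      rw [List.getD_append_right _ _ _ _ h1] at h
      apply hi0
      rw [← h]
      rw [List.getD_eq_getElem?_getD, List.getElem?_replicate]
      split_ifs <;> rfl

/-- The answer to Q1: an integer `p ≥ 2` is good if and only if `p = 2`. -/
theorem result : ∀ p : ℕ, 2 ≤ p → (Good p ↔ p = 2) := by
  intro p hp
  refine ⟨fun hg => ?_, fun h => h ▸ good_two⟩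
  by_contra hne
  have h3 : ∀ m, ¬ Good (3 + 6 * m) := by
    refine bad_of_block (l := [0, 0, 2]) ?_ grows3 2 (by norm_num) (by simp) ?_
    · intro a ha
      simp only [List.mem_cons, List.not_mem_nil, or_false] at ha
      rcases ha with rfl | rfl | rfl <;> norm_num
    · intro j hj h
      simp only [List.length_cons, List.length_nil] at hj
      interval_cases j <;> simp at h ⊢
  have h4 : ∀ m, ¬ Good (4 + 6 * m) := by
    refine bad_of_block (l := b4) ?_ grows4 1 (by simp [b4]) (by simp [b4]) ?_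
    · intro a ha
      simp only [b4, List.mem_cons, List.not_mem_nil, or_false] at ha
      rcases ha with rfl | rfl | rfl | rfl <;> positivity
    · intro j hj h
      simp only [b4, List.length_cons, List.length_nil] at hj
      interval_cases j <;> simp [b4] at h ⊢ <;> norm_num at h
  have h5 : ∀ m, ¬ Good (5 + 6 * m) := by
    refine bad_of_block (l := [1, 1, 1, 1, 3]) ?_ grows5 4 (by norm_num) (by simp) ?_
    · intro a ha
      simp only [List.mem_cons, List.not_mem_nil, or_false] at ha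
      rcases ha with rfl | rfl | rfl | rfl | rfl <;> norm_num
    · intro j hj h
      simp only [List.length_cons, List.length_nil] at hj
      interval_cases j <;> simp at h ⊢
  have h6 : ∀ m, ¬ Good (6 + 6 * m) := by
    refine bad_of_block (l := [0, 0, 0, 0, 0, 1]) ?_ grows6 5 (by norm_num) (by simp) ?_
    · intro a ha
      simp only [List.mem_cons, List.not_mem_nil, or_false] at ha
      rcases ha with rfl | rfl | rfl | rfl | rfl | rfl <;> norm_num
    · intro j hj h
      simp only [List.length_cons, List.length_nil] at hj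
      interval_cases j <;> simp at h ⊢
  have h7 : ∀ m, ¬ Good (7 + 6 * m) := by
    refine bad_of_block (l := [2, 1, 0, 1, 0, 1, 0]) ?_ grows7 0 (by norm_num) (by simp) ?_
    · intro a ha
      simp only [List.mem_cons, List.not_mem_nil, or_false] at ha
      rcases ha with rfl | rfl | rfl | rfl | rfl | rfl | rfl <;> norm_num
    · intro j hj h
      simp only [List.length_cons, List.length_nil] at hj
      interval_cases j <;> simp at h ⊢
  have h8 : ∀ m, ¬ Good (8 + 6 * m) := by
    refine bad_of_block (l := [0, 0, 2, 1, 1, 1, 1, 1]) ?_ grows8 2 (by norm_num) (by simp) ?_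
    · intro a ha
      simp only [List.mem_cons, List.not_mem_nil, or_false] at ha
      rcases ha with rfl | rfl | rfl | rfl | rfl | rfl | rfl | rfl <;> norm_num
    · intro j hj h
      simp only [List.length_cons, List.length_nil] at hj
      interval_cases j <;> simp at h ⊢
  have hm : p % 6 = 3 ∨ p % 6 = 4 ∨ p % 6 = 5 ∨ p % 6 = 0 ∨ p % 6 = 1 ∨ p % 6 = 2 := by omega
  rcases hm with h | h | h | h | h | h
  · exact h3 ((p - 3) / 6) (by rwa [show 3 + 6 * ((p - 3) / 6) = p by omega])
  · exact h4 ((p - 4) / 6) (by rwa [show 4 + 6 * ((p - 4) / 6) = p by omega])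
  · exact h5 ((p - 5) / 6) (by rwa [show 5 + 6 * ((p - 5) / 6) = p by omega])
  · exact h6 ((p - 6) / 6) (by rwa [show 6 + 6 * ((p - 6) / 6) = p by omega])
  · exact h7 ((p - 7) / 6) (by rwa [show 7 + 6 * ((p - 7) / 6) = p by omega])
  · exact h8 ((p - 8) / 6) (by rwa [show 8 + 6 * ((p - 8) / 6) = p by omega])

end Pool.Agent.Results.MP_e65cda_an.OnlyTwo
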